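import Pool.Agent.Q177.AC.Asm
import Pool.Agent.Q177.AC.HAHN
import Pool.Agent.Q177.AC.NU
import Pool.Agent.Q177.AC.SPH
import Pool.Agent.Q177.AC.Coord
import Pool.Agent.Q162.AC.RES
import Pool.Agent.Q222.AC.TRG
import Pool.Agent.Q222.AC.LOG
import Pool.Agent.Q222.AC.HYG
import Pool.Agent.Q222.AC.HYC
import Pool.Agent.Q222.AC.LIN

set_option autoImplicit false

/-!
MP_efec2f_gt, Q1, answer NO: asymptotic cones do not determine the sequence distortion spectrum.
The definitions are in `Pool.Agent.Q177.AC.Base`.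
-/

namespace Pool.Agent.Results.MP_efec2f_gt.SameConesDifferentSpectra

open Pool.Agent.Q177.AC

/-- There are proper geodesic metric spaces `X`, `Y` such that for every non-principal ultrafilter, all scales `r_i → ∞` and all sequences of base points in `X` and `Y`
the asymptotic cones are isometric, in particular bi-Lipschitz equivalent, but the sequence distortion spectra differ, for the index set of the positive integers and for the
index set of all integers. -/
theorem result : ∃ (X Y : Type) (_ : MetricSpace X) (_ : MetricSpace Y), ProperSpace X ∧ ProperSpace Y ∧ Geodesic X ∧ Geodesic Y ∧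
    (∀ ω : Ultrafilter ℕ, (∀ n, ω ≠ pure n) → ∀ (r : Scales) (x : ℕ → X) (y : ℕ → Y),
      Nonempty (Cone ω x r ≃ᵢ Cone ω y r) ∧ BiLip (Cone ω x r) (Cone ω y r)) ∧
    Spectrum X Pos ≠ Spectrum Y Pos ∧ Spectrum X Set.univ ≠ Spectrum Y Set.univ :=
  main Pool.Agent.Q222.AC.t_TRG Pool.Agent.Q222.AC.t_TRP t_TR4 Pool.Agent.Q222.AC.t_LIN Pool.Agent.Q222.AC.t_HYG Pool.Agent.Q222.AC.t_HYC
    Pool.Agent.Q222.AC.t_LOG Pool.Agent.Q222.AC.t_GOOD t_NU t_SPH Pool.Agent.Q162.AC.t_RES t_HAHN t_CON

end Pool.Agent.Results.MP_efec2f_gt.SameConesDifferentSpectra
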